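import Pool.Agent.H523.ZG.Stm

set_option autoImplicit false

/-! # Weil's bound for the sums of a character over the primes of degree `n` -/

namespace Pool.Agent.H205.ZG

open Polynomial Finset
open Pool.Agent.H341R2.Sharp (Mon mem_Mon)
open Pool.Agent.H523
open Pool.Agent.H523.FF (Ir mem_Ir two_le_card Ir_disj)
open Pool.Agent.H523.CM (th cq cq_monic cq_hay cq_nonpr)
open Pool.Agent.H523.ZG
open Pool.Agent.Q284 Pool.Agent.Q284.WE

open scoped Classical

theorem norm_cq_le {F : Type} [Field F] [Fintype F] {M : F[X]} (hM : M.Monic)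
    (χ : MulChar (AdjoinRoot M) ℂ) (P : F[X]) : ‖cq M χ P‖ ≤ 1 := by
  have := RH.finite_adjoinRoot hM
  unfold cq
  split_ifs with h
  · by_cases hu : IsUnit (AdjoinRoot.mk M P)
    · exact (RH.norm_char χ hu).le
    · rw [χ.map_nonunit hu, norm_zero]
      exact zero_le_one
  · rw [norm_zero]
    exact zero_le_one

theorem psi_eq {F : Type} [Field F] [Fintype F] (n : ℕ) (hn : 1 ≤ n) (M : F[X])
    (χ : MulChar (AdjoinRoot M) ℂ) :
    ∑ P ∈ Ir F n, (P.natDegree : ℂ) * cq M χ P ^ (n / P.natDegree) = psi n M χ := by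
  unfold psi
  have hsub : Ir F n ⊆ Mon F n := by
    intro P hP
    have := mem_Ir.mp hP
    exact mem_Mon.mpr ⟨this.1, this.2.2⟩
  rw [← Finset.sum_subset hsub]
  · refine Finset.sum_congr rfl (fun P hP => ?_)
    have h := mem_Ir.mp hP
    rw [h.2.2, Nat.div_self (by omega), pow_one, cq_monic χ h.1]
    unfold th
    rw [if_pos hP]
    simp
  · intro P _ hP
    unfold th
    rw [if_neg hP]
    simp

theorem main : S_D1 := by
  intro F _ _ n M χ hM hn hχ
  have hn1 : 1 ≤ n := by omega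
  have h1 := weil_hayes F M 0 (cq M χ) (cq_hay hM χ) (cq_nonpr hM hχ) n hn1
  rw [add_zero] at h1
  have h2 : trc (cq M χ) n = psi n M χ +
      ∑ d ∈ n.properDivisors, ∑ P ∈ Ir F d, (P.natDegree : ℂ) * cq M χ P ^ (n / P.natDegree) := by
    unfold trc
    rw [RH.PD_eq n hn1, Finset.sum_biUnion (fun a _ b _ hab => Ir_disj a trivial b trivial hab),
      ← Nat.insert_self_properDivisors (by omega),
      Finset.sum_insert Nat.self_notMem_properDivisors, psi_eq n hn1]
  have h3 : ‖∑ d ∈ n.properDivisors, ∑ P ∈ Ir F d,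
      (P.natDegree : ℂ) * cq M χ P ^ (n / P.natDegree)‖ ≤ 2 * (√(Fintype.card F : ℝ)) ^ n := by
    calc ‖∑ d ∈ n.properDivisors, ∑ P ∈ Ir F d,
          (P.natDegree : ℂ) * cq M χ P ^ (n / P.natDegree)‖
        ≤ ∑ d ∈ n.properDivisors, ∑ P ∈ Ir F d, (P.natDegree : ℝ) := by
          refine (norm_sum_le _ _).trans (Finset.sum_le_sum (fun d _ => ?_))
          refine (norm_sum_le _ _).trans (Finset.sum_le_sum (fun P _ => ?_))
          rw [norm_mul, norm_pow, Complex.norm_natCast]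
          exact mul_le_of_le_one_right (Nat.cast_nonneg _)
            (pow_le_one₀ (norm_nonneg _) (norm_cq_le hM χ P))
      _ ≤ 2 * (Fintype.card F : ℝ) ^ (n / 2) := RH.proper_le F n hn1
      _ ≤ 2 * (√(Fintype.card F : ℝ)) ^ n := by
          have := RH.half_le (F := F) n
          linarith
  have h4 : psi n M χ = trc (cq M χ) n - ∑ d ∈ n.properDivisors, ∑ P ∈ Ir F d,
      (P.natDegree : ℂ) * cq M χ P ^ (n / P.natDegree) := by
    rw [h2]; ring
  have h5 : ((M.natDegree : ℝ) + 2) ≤ 3 * n := by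
    have : M.natDegree + 2 ≤ 3 * n := by omega
    exact_mod_cast this
  have h6 : (0:ℝ) ≤ (√(Fintype.card F : ℝ)) ^ n := by positivity
  rw [h4]
  calc _ ≤ ‖trc (cq M χ) n‖ + ‖∑ d ∈ n.properDivisors, ∑ P ∈ Ir F d,
      (P.natDegree : ℂ) * cq M χ P ^ (n / P.natDegree)‖ := norm_sub_le _ _
    _ ≤ (M.natDegree : ℝ) * (√(Fintype.card F : ℝ)) ^ n + 2 * (√(Fintype.card F : ℝ)) ^ n :=
        add_le_add h1 h3
    _ = ((M.natDegree : ℝ) + 2) * (√(Fintype.card F : ℝ)) ^ n := by ring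
    _ ≤ 3 * n * (√(Fintype.card F : ℝ)) ^ n := mul_le_mul_of_nonneg_right h5 h6

end Pool.Agent.H205.ZG

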